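import Pool.Agent.Q229.BD.Red
import Pool.Agent.NPC.Classes

/-!
# Computing the broadcast dimension is NP-hard

The reduction is from exact cover by 3-sets.  All the graphs have a vertex that is adjacent to all
other vertices, so that `d_i(x, z) ≠ d_i(y, z)` means, for every `i ≥ 1`, that `z` is one of `x`, `y`
or is adjacent to exactly one of them.  There are a vertex for each of the `m` triples and two
vertices `a_u`, `b_u` for each of the `3 q` elements; `a_u` is adjacent to the triples containing
`u`.  Each triple and each element has a pair of false twins of its own, one of which has positive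
value in every resolving broadcast; the twins also separate everything else except `a_u` from `b_u`.
The broadcast dimension is at most `m + 3 q + q` if and only if there is an exact cover.
-/

set_option autoImplicit false

namespace Pool.Agent.Results.MP_307b22_lc.BroadcastDimensionNPHard

open Pool.Agent.NPC Pool.Agent.H622R2 Q229.BD

/-- **Deciding `bdim G ≤ k` is NP-hard**, even for graphs `G` with a vertex adjacent to all other
vertices: every language in `NP` has a polynomial-time many-one reduction to this problem whose
values are pairs of (the adjacency matrix of) such a graph and a number `k`.  Hence a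
polynomial-time algorithm for it gives `NP ⊆ P`. -/
theorem result :
    (∀ L : Set (List Bool), InNP L → ∃ f : List Bool → List (List Bool) × ℕ,
      PolyTime (fun x => bits (f x)) ∧
      (∀ x, ∃ w, ∀ v, v ≠ w → (matGraph (f x).1).Adj w v) ∧
      ∀ x, x ∈ L ↔ bdim (matGraph (f x).1) ≤ (f x).2) ∧
    NPHardP BDIM ∧ (InPP BDIM → ∀ L : Set (List Bool), InNP L → InP L) := by
  refine ⟨fun L hL => ?_, hard.toHardI.toNPHardP, fun h => NPHard.collapse hard.toHardI.toNPHardP h⟩
  obtain ⟨f, hf, hpr, h⟩ := hard L hL
  exact ⟨f, PC.toPolyTime hf, hpr, h⟩

end Pool.Agent.Results.MP_307b22_lc.BroadcastDimensionNPHard
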